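import Pool.Agent.DihedralVol.Defs

open MeasureTheory Set

namespace Pool.Agent.DihedralVol

lemma lor_comm (x y : Fin 4 → ℝ) : lor x y = lor y x := by unfold lor; ring

/-- Normalising a future timelike vector. -/
lemma exists_H3 (w : Fin 4 → ℝ) (h : lor w w < 0) (h3 : 0 < w 3) :
    ∃ x ∈ H3, ∃ c : ℝ, 0 < c ∧ ∀ u, lor x u = c * lor w u := by
  have hpos : 0 < -lor w w := by linarith
  obtain ⟨c, hc, hcc⟩ : ∃ c : ℝ, 0 < c ∧ c * c * (-lor w w) = 1 := by
    have hs : 0 < √(-lor w w) := Real.sqrt_pos.2 hpos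
    refine ⟨(√(-lor w w))⁻¹, inv_pos.2 hs, ?_⟩
    have hsq : √(-lor w w) * √(-lor w w) = -lor w w := Real.mul_self_sqrt hpos.le
    have h1 : (√(-lor w w))⁻¹ * √(-lor w w) = 1 := inv_mul_cancel₀ hs.ne'
    calc (√(-lor w w))⁻¹ * (√(-lor w w))⁻¹ * (-lor w w)
        = (√(-lor w w))⁻¹ * (√(-lor w w))⁻¹ * (√(-lor w w) * √(-lor w w)) := by rw [hsq]
      _ = ((√(-lor w w))⁻¹ * √(-lor w w)) * ((√(-lor w w))⁻¹ * √(-lor w w)) := by ring
      _ = 1 := by rw [h1]; norm_num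
  refine ⟨fun i => c * w i, ⟨?_, mul_pos hc h3⟩, c, hc, ?_⟩
  · have : lor (fun i => c * w i) (fun i => c * w i) = -(c * c * (-lor w w)) := by
      unfold lor; ring
    rw [this, hcc]
  · intro u; unfold lor; ring

lemma planes_meet (A B : Halfspace) (w : Fin 4 → ℝ) (h : lor w w < 0) (h3 : 0 < w 3)
    (hA : lor w A.normal = 0) (hB : lor w B.normal = 0) : (A.plane ∩ B.plane).Nonempty := by
  obtain ⟨x, hx, c, -, hc⟩ := exists_H3 w h h3
  exact ⟨x, ⟨hx, by rw [hc, hA, mul_zero]⟩, ⟨hx, by rw [hc, hB, mul_zero]⟩⟩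

lemma planeDist_nonneg (A B : Halfspace) : 0 ≤ planeDist A B := by
  apply Real.sInf_nonneg
  rintro d ⟨x, hx, y, hy, rfl⟩
  apply Real.arcosh_nonneg
  -- reversed Cauchy–Schwarz on the hyperboloid
  have hx1 : lor x x = -1 := hx.1.1
  have hy1 : lor y y = -1 := hy.1.1
  have hx3 : 0 < x 3 := hx.1.2
  have hy3 : 0 < y 3 := hy.1.2
  unfold lor at *
  have hxx : x 3 ^ 2 = 1 + (x 0 ^ 2 + x 1 ^ 2 + x 2 ^ 2) := by nlinarith
  have hyy : y 3 ^ 2 = 1 + (y 0 ^ 2 + y 1 ^ 2 + y 2 ^ 2) := by nlinarith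
  have key : (1 + (x 0 * y 0 + x 1 * y 1 + x 2 * y 2)) ^ 2 ≤ (x 3 * y 3) ^ 2 := by
    rw [mul_pow, hxx, hyy]
    nlinarith [sq_nonneg (x 0 - y 0), sq_nonneg (x 1 - y 1), sq_nonneg (x 2 - y 2),
      sq_nonneg (x 0 * y 1 - x 1 * y 0), sq_nonneg (x 0 * y 2 - x 2 * y 0),
      sq_nonneg (x 1 * y 2 - x 2 * y 1)]
  have := abs_le_of_sq_le_sq' key (mul_pos hx3 hy3).le
  linarith [this.2]

/-- Comparison of the measures of two dihedral angles. -/
lemma dihedral_lt (A B A' B' : Halfspace) (hne : (A'.plane ∩ B'.plane).Nonempty)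
    (h : lor A.normal B.normal < lor A'.normal B'.normal)
    (h0 : -1 < lor A'.normal B'.normal) (h1 : lor A'.normal B'.normal < 1) :
    dihedral A B < dihedral A' B' := by
  have hpos : 0 < Real.pi - Real.arccos (lor A'.normal B'.normal) := by
    have : Real.arccos (lor A'.normal B'.normal) < Real.pi := by
      rw [← Real.arccos_neg_one]
      exact Real.strictAntiOn_arccos ⟨le_refl _, by norm_num⟩ ⟨h0.le, h1.le⟩ h0
    linarith
  unfold dihedral
  rw [if_pos hne]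
  split_ifs with hc
  · rcases le_or_gt (-1) (lor A.normal B.normal) with h2 | h2
    · have : Real.arccos (lor A'.normal B'.normal) < Real.arccos (lor A.normal B.normal) :=
        Real.strictAntiOn_arccos ⟨h2, by linarith⟩ ⟨h0.le, h1.le⟩ h
      linarith
    · rw [Real.arccos_of_le_neg_one h2.le]
      linarith
  · linarith [planeDist_nonneg A B]

lemma isClosed_H3 : IsClosed H3 := by
  have : H3 = {x : Fin 4 → ℝ | lor x x = -1} ∩ {x | 1 ≤ x 3} := by
    ext x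
    constructor
    · rintro ⟨h1, h2⟩
      refine ⟨h1, ?_⟩
      show 1 ≤ x 3
      unfold lor at h1
      nlinarith [sq_nonneg (x 0), sq_nonneg (x 1), sq_nonneg (x 2)]
    · rintro ⟨h1, h2⟩
      exact ⟨h1, lt_of_lt_of_le one_pos h2⟩
  rw [this]
  refine (isClosed_eq ?_ continuous_const).inter (isClosed_le continuous_const (continuous_apply 3))
  unfold lor
  fun_prop

lemma isClosed_poly {N : ℕ} (P : Fin N → Halfspace) : IsClosed (poly P) := by
  have : poly P = H3 ∩ ⋂ i, (H3 ∩ {x | lor x (P i).normal ≤ 0}) := by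
    ext x
    simp only [poly, Halfspace.carrier, mem_inter_iff, mem_iInter, Set.mem_ofPred_eq]
  rw [this]
  refine isClosed_H3.inter (isClosed_iInter fun i => isClosed_H3.inter (isClosed_le ?_
    continuous_const))
  unfold lor
  fun_prop

lemma isCompact_poly {N : ℕ} (P : Fin N → Halfspace) (W : ℝ)
    (h : ∀ x ∈ poly P, ∀ i, |x i| ≤ W) : IsCompact (poly P) := by
  refine isCompact_Icc.of_isClosed_subset (isClosed_poly P)
    (s := Icc (fun _ => -W) (fun _ => W)) ?_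
  intro x hx
  exact ⟨fun i => (abs_le.1 (h x hx i)).1, fun i => (abs_le.1 (h x hx i)).2⟩

lemma volume_box (l r : Fin 3 → ℝ) (h0 : l 0 ≤ r 0) (h1 : l 1 ≤ r 1) :
    volume (Icc l r) = ENNReal.ofReal ((r 0 - l 0) * (r 1 - l 1) * (r 2 - l 2)) := by
  rw [Real.volume_Icc_pi, Fin.prod_univ_three, ENNReal.ofReal_mul
    (mul_nonneg (sub_nonneg.2 h0) (sub_nonneg.2 h1)), ENNReal.ofReal_mul (sub_nonneg.2 h0)]

lemma hvol_le (S : Set (Fin 4 → ℝ)) (l r : Fin 3 → ℝ) (h0 : l 0 ≤ r 0) (h1 : l 1 ≤ r 1)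
    (h : ∀ y, lift y ∈ S → y ∈ Icc l r) :
    hvol S ≤ ENNReal.ofReal ((r 0 - l 0) * (r 1 - l 1) * (r 2 - l 2)) := by
  unfold hvol
  calc ∫⁻ y in {y : Fin 3 → ℝ | lift y ∈ S},
        ENNReal.ofReal (1 / √(1 + (y 0 ^ 2 + y 1 ^ 2 + y 2 ^ 2)))
      ≤ ∫⁻ y in Icc l r, ENNReal.ofReal (1 / √(1 + (y 0 ^ 2 + y 1 ^ 2 + y 2 ^ 2))) :=
        lintegral_mono_set h
    _ ≤ ∫⁻ _ in Icc l r, 1 := by
        apply lintegral_mono
        intro y
        rw [← ENNReal.ofReal_one]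
        apply ENNReal.ofReal_le_ofReal
        rw [div_le_one (Real.sqrt_pos.2 (by positivity))]
        rw [Real.one_le_sqrt]
        nlinarith [sq_nonneg (y 0), sq_nonneg (y 1), sq_nonneg (y 2)]
    _ = volume (Icc l r) := by simp
    _ = _ := volume_box l r h0 h1

lemma le_hvol (S : Set (Fin 4 → ℝ)) (l r : Fin 3 → ℝ) (K : ℝ) (hK : 0 < K) (h0 : l 0 ≤ r 0)
    (h1 : l 1 ≤ r 1) (h : ∀ y ∈ Icc l r, lift y ∈ S)
    (hK' : ∀ y ∈ Icc l r, 1 + (y 0 ^ 2 + y 1 ^ 2 + y 2 ^ 2) ≤ K ^ 2) :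
    ENNReal.ofReal ((1 / K) * ((r 0 - l 0) * (r 1 - l 1) * (r 2 - l 2))) ≤ hvol S := by
  unfold hvol
  calc ENNReal.ofReal ((1 / K) * ((r 0 - l 0) * (r 1 - l 1) * (r 2 - l 2)))
      = ENNReal.ofReal (1 / K) * volume (Icc l r) := by
        rw [volume_box l r h0 h1, ENNReal.ofReal_mul (by positivity)]
    _ = ∫⁻ _ in Icc l r, ENNReal.ofReal (1 / K) := by
        rw [setLIntegral_const]
    _ ≤ ∫⁻ y in Icc l r, ENNReal.ofReal (1 / √(1 + (y 0 ^ 2 + y 1 ^ 2 + y 2 ^ 2))) := by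
        apply setLIntegral_mono' measurableSet_Icc
        intro y hy
        apply ENNReal.ofReal_le_ofReal
        apply one_div_le_one_div_of_le (Real.sqrt_pos.2 (by positivity))
        rw [Real.sqrt_le_left hK.le]
        exact hK' y hy
    _ ≤ _ := lintegral_mono_set h

end Pool.Agent.DihedralVol
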