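import Mathlib

/-!
# Hyperbolic 3-space, halfspaces, dihedral angles and volume (hyperboloid model)
-/

namespace Pool.Agent.DihedralVol

/-- The Lorentz form `x₀y₀ + x₁y₁ + x₂y₂ - x₃y₃` on `ℝ⁴`. -/
def lor (x y : Fin 4 → ℝ) : ℝ := x 0 * y 0 + x 1 * y 1 + x 2 * y 2 - x 3 * y 3

/-- Hyperbolic 3-space in the hyperboloid model. -/
def H3 : Set (Fin 4 → ℝ) := {x | lor x x = -1 ∧ 0 < x 3}

/-- The hyperbolic distance: `cosh d(x, y) = -⟨x, y⟩`. -/
noncomputable def hdist (x y : Fin 4 → ℝ) : ℝ := Real.arcosh (-lor x y)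

/-- A closed halfspace of `H3` (with its bounding plane) is given by its outward unit normal, a
vector `u` with `⟨u, u⟩ = 1`. -/
structure Halfspace where
  /-- the outward unit normal -/
  normal : Fin 4 → ℝ
  unit : lor normal normal = 1

/-- The bounding plane `{x ∈ H3 : ⟨x, u⟩ = 0}`. -/
def Halfspace.plane (A : Halfspace) : Set (Fin 4 → ℝ) := {x | x ∈ H3 ∧ lor x A.normal = 0}

/-- The closed halfspace `{x ∈ H3 : ⟨x, u⟩ ≤ 0}` itself. -/
def Halfspace.carrier (A : Halfspace) : Set (Fin 4 → ℝ) := {x | x ∈ H3 ∧ lor x A.normal ≤ 0}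

/-- The hyperbolic distance of the bounding planes of two halfspaces. -/
noncomputable def planeDist (A B : Halfspace) : ℝ :=
  sInf {d | ∃ x ∈ A.plane, ∃ y ∈ B.plane, d = hdist x y}

open Classical in
/-- The measure of the dihedral angle `A⁺ ∩ B⁺`: if the planes intersect, the angular measure of
the wedge, i.e. `π` minus the angle between the outward unit normals (at a point `x` of both planes
the outward unit normals of the two halfspaces in the tangent space `x^⊥` are the normals of `A`
and `B`); otherwise minus the distance of the two planes (which is `0` for parallel planes). -/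
noncomputable def dihedral (A B : Halfspace) : ℝ :=
  if (A.plane ∩ B.plane).Nonempty then Real.pi - Real.arccos (lor A.normal B.normal)
  else -planeDist A B

/-- The intersection of finitely many closed halfspaces. -/
def poly {N : ℕ} (P : Fin N → Halfspace) : Set (Fin 4 → ℝ) :=
  {x | x ∈ H3 ∧ ∀ i, x ∈ (P i).carrier}

/-- The halfspaces `P 0, …, P (N-1)` present a compact convex polyhedron: their intersection is
compact, it has interior points, and no halfspace is redundant (each one is bounded by the plane of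
a facet). -/
structure IsPolyhedron {N : ℕ} (P : Fin N → Halfspace) : Prop where
  compact : IsCompact (poly P)
  interior : ∃ x ∈ H3, ∀ i, lor x (P i).normal < 0
  irredundant : ∀ i, ∃ x ∈ H3, (∀ j, j ≠ i → x ∈ (P j).carrier) ∧ x ∉ (P i).carrier

/-- The global chart `ℝ³ → H3`, `y ↦ (y, √(1 + |y|²))`. -/
noncomputable def lift (y : Fin 3 → ℝ) : Fin 4 → ℝ :=
  ![y 0, y 1, y 2, √(1 + (y 0 ^ 2 + y 1 ^ 2 + y 2 ^ 2))]

/-- Hyperbolic volume: in the chart `lift` the hyperbolic metric is
`g_ij = δ_ij - y_i y_j / (1 + |y|²)`, with `det g = 1 / (1 + |y|²)`, so the volume element is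
`dy / √(1 + |y|²)`. -/
noncomputable def hvol (S : Set (Fin 4 → ℝ)) : ENNReal :=
  ∫⁻ y in {y : Fin 3 → ℝ | lift y ∈ S},
    ENNReal.ofReal (1 / √(1 + (y 0 ^ 2 + y 1 ^ 2 + y 2 ^ 2)))

end Pool.Agent.DihedralVol
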