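import Pool.Agent.DihedralVol.Basic

open MeasureTheory Set

namespace Pool.Agent.DihedralVol

/-- The halfspace with outward unit normal `(x, y, z, w)`. -/
def mkH (x y z w : ℝ) (h : x * x + y * y + z * z - w * w = 1) : Halfspace :=
  ⟨![x, y, z, w], by simpa [lor] using h⟩

@[simp] lemma lor_mkH (v : Fin 4 → ℝ) (x y z w : ℝ) (h : x * x + y * y + z * z - w * w = 1) :
    lor v (mkH x y z w h).normal = v 0 * x + v 1 * y + v 2 * z - v 3 * w := by
  simp [lor, mkH]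

@[simp] lemma mkH_apply (x y z w : ℝ) (h : x * x + y * y + z * z - w * w = 1) :
    (mkH x y z w h).normal 0 = x ∧ (mkH x y z w h).normal 1 = y ∧
    (mkH x y z w h).normal 2 = z ∧ (mkH x y z w h).normal 3 = w := by
  simp [mkH]

/-- sinh of the width of the prism -/
noncomputable def s : ℝ := 2000000 / 999999999999
noncomputable def c : ℝ := 1000000000001 / 999999999999
noncomputable def a : ℝ := 6000000 / 9000000000001
noncomputable def b : ℝ := 8999999999999 / 9000000000001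

lemma hcs : c * c - s * s = 1 := by unfold c s; norm_num
lemma hab : a * a + b * b = 1 := by unfold a b; norm_num

/-- The thin triangular prism. -/
noncomputable def P : Fin 5 → Halfspace := ![
  mkH 0 0 (-5 / 4) (3 / 4) (by norm_num),
  mkH c 0 0 s (by linarith [hcs]),
  mkH 0 0 (5 / 4) (3 / 4) (by norm_num),
  mkH (-7 / 25 * c) (24 / 25 * c) 0 s (by linarith [hcs]),
  mkH (-7 / 25 * c) (-24 / 25 * c) 0 s (by linarith [hcs])]

/-- The thin tetrahedron with one face bent. -/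
noncomputable def Q : Fin 5 → Halfspace := ![
  mkH (-a) 0 (-b) 0 (by linarith [hab]),
  mkH (3 / 4) (4 / 5) 0 (9 / 20) (by norm_num),
  mkH (-a) 0 b 0 (by linarith [hab]),
  mkH (3 / 4) (-4 / 5 * b) (4 / 5 * a) (9 / 20) (by linarith [hab]),
  mkH (3 / 4) (-4 / 5 * b) (-4 / 5 * a) (9 / 20) (by linarith [hab])]

lemma mem_poly_P (x : Fin 4 → ℝ) : x ∈ poly P ↔ x ∈ H3 ∧
    -(5 / 4) * x 2 ≤ 3 / 4 * x 3 ∧ c * x 0 ≤ s * x 3 ∧ 5 / 4 * x 2 ≤ 3 / 4 * x 3 ∧
    c * (-7 / 25 * x 0 + 24 / 25 * x 1) ≤ s * x 3 ∧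
    c * (-7 / 25 * x 0 - 24 / 25 * x 1) ≤ s * x 3 := by
  constructor
  · rintro ⟨h, hi⟩
    have h0 := (hi 0).2
    have h1 := (hi 1).2
    have h2 := (hi 2).2
    have h3 := (hi 3).2
    have h4 := (hi 4).2
    simp only [P, Matrix.cons_val, lor_mkH] at h0 h1 h2 h3 h4
    exact ⟨h, by linarith, by linarith, by linarith, by linarith, by linarith⟩
  · rintro ⟨h, h0, h1, h2, h3, h4⟩
    refine ⟨h, fun i => ⟨h, ?_⟩⟩
    fin_cases i <;> simp only [P, Fin.mk_one, Fin.zero_eta, Fin.reduceFinMk, Matrix.cons_val,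
      lor_mkH] <;> linarith

lemma mem_poly_Q (x : Fin 4 → ℝ) : x ∈ poly Q ↔ x ∈ H3 ∧
    -b * x 2 ≤ a * x 0 ∧ 3 / 4 * x 0 + 4 / 5 * x 1 ≤ 9 / 20 * x 3 ∧ b * x 2 ≤ a * x 0 ∧
    3 / 4 * x 0 - 4 / 5 * b * x 1 + 4 / 5 * a * x 2 ≤ 9 / 20 * x 3 ∧
    3 / 4 * x 0 - 4 / 5 * b * x 1 - 4 / 5 * a * x 2 ≤ 9 / 20 * x 3 := by
  constructor
  · rintro ⟨h, hi⟩
    have h0 := (hi 0).2
    have h1 := (hi 1).2
    have h2 := (hi 2).2
    have h3 := (hi 3).2
    have h4 := (hi 4).2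
    simp only [Q, Matrix.cons_val, lor_mkH] at h0 h1 h2 h3 h4
    exact ⟨h, by linarith, by linarith, by linarith, by linarith, by linarith⟩
  · rintro ⟨h, h0, h1, h2, h3, h4⟩
    refine ⟨h, fun i => ⟨h, ?_⟩⟩
    fin_cases i <;> simp only [Q, Fin.mk_one, Fin.zero_eta, Fin.reduceFinMk, Matrix.cons_val,
      lor_mkH] <;> linarith

/-! ### Size bounds -/

lemma H3_sq {x : Fin 4 → ℝ} (h : x ∈ H3) : x 3 ^ 2 = 1 + (x 0 ^ 2 + x 1 ^ 2 + x 2 ^ 2) := by
  have := h.1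
  unfold lor at this
  nlinarith

lemma bound_P {x : Fin 4 → ℝ} (h : x ∈ poly P) :
    |x 0| ≤ 2 / 100000 ∧ |x 1| ≤ 1 / 100000 ∧ |x 2| ≤ 1 ∧ x 3 ≤ 2 := by
  obtain ⟨hx, h0, h1, h2, h3, h4⟩ := (mem_poly_P x).1 h
  have hsq := H3_sq hx
  have hw : 0 < x 3 := hx.2
  unfold c s at *
  have e0 : |x 0| ≤ 8 / 1000000 * x 3 := by
    rw [abs_le]; constructor <;> linarith
  have e1 : |x 1| ≤ 3 / 1000000 * x 3 := by
    rw [abs_le]; constructor <;> linarith
  have e2 : |x 2| ≤ 3 / 5 * x 3 := by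
    rw [abs_le]; constructor <;> linarith
  have q0 : x 0 ^ 2 ≤ (8 / 1000000 * x 3) ^ 2 := sq_le_sq' (by linarith [abs_le.1 e0]) (abs_le.1 e0).2
  have q1 : x 1 ^ 2 ≤ (3 / 1000000 * x 3) ^ 2 := sq_le_sq' (by linarith [abs_le.1 e1]) (abs_le.1 e1).2
  have q2 : x 2 ^ 2 ≤ (3 / 5 * x 3) ^ 2 := sq_le_sq' (by linarith [abs_le.1 e2]) (abs_le.1 e2).2
  have hw2 : x 3 ^ 2 ≤ (5 / 4 + 1 / 100) ^ 2 := by nlinarith
  have hw3 : x 3 ≤ 5 / 4 + 1 / 100 := by
    by_contra hcon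
    nlinarith
  refine ⟨by linarith, by linarith, by linarith, by linarith⟩

lemma bound_Q {x : Fin 4 → ℝ} (h : x ∈ poly Q) :
    |x 0| ≤ 2 ∧ |x 1| ≤ 2 ∧ |x 2| ≤ 2 ∧ x 3 ≤ 2 := by
  obtain ⟨hx, h0, h1, h2, h3, h4⟩ := (mem_poly_Q x).1 h
  have hsq := H3_sq hx
  have hw : 0 < x 3 := hx.2
  unfold a b at *
  have e0 : |x 0| ≤ 61 / 100 * x 3 := by
    rw [abs_le]; constructor <;> linarith
  have e1 : |x 1| ≤ 57 / 100 * x 3 := by
    rw [abs_le]; constructor <;> linarith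
  have e2 : |x 2| ≤ 1 / 100 * x 3 := by
    rw [abs_le]; constructor <;> linarith
  have q0 : x 0 ^ 2 ≤ (61 / 100 * x 3) ^ 2 := sq_le_sq' (by linarith [abs_le.1 e0]) (abs_le.1 e0).2
  have q1 : x 1 ^ 2 ≤ (57 / 100 * x 3) ^ 2 := sq_le_sq' (by linarith [abs_le.1 e1]) (abs_le.1 e1).2
  have q2 : x 2 ^ 2 ≤ (1 / 100 * x 3) ^ 2 := sq_le_sq' (by linarith [abs_le.1 e2]) (abs_le.1 e2).2
  have hw2 : x 3 ^ 2 ≤ 2 ^ 2 := by nlinarith
  have hw3 : x 3 ≤ 2 := by
    by_contra hcon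
    nlinarith
  refine ⟨by linarith, by linarith, by linarith, by linarith⟩

/-! ### The two polyhedra -/

lemma mem_of_lor {x w u : Fin 4 → ℝ} {k : ℝ} (hk : 0 < k) (h : ∀ u, lor x u = k * lor w u)
    (hu : lor w u ≤ 0) : lor x u ≤ 0 := by
  rw [h]; exact mul_nonpos_of_nonneg_of_nonpos hk.le hu

lemma isPolyhedron_of {N : ℕ} (R : Fin N → Halfspace) (W : ℝ)
    (hW : ∀ x ∈ poly R, ∀ i, |x i| ≤ W) (w0 : Fin 4 → ℝ) (hw0 : lor w0 w0 < 0) (hw03 : 0 < w0 3)
    (h0 : ∀ i, lor w0 (R i).normal < 0) (w : Fin N → Fin 4 → ℝ)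
    (hw : ∀ i, lor (w i) (w i) < 0) (hw3 : ∀ i, 0 < w i 3)
    (h1 : ∀ i j, j ≠ i → lor (w i) (R j).normal ≤ 0) (h2 : ∀ i, 0 < lor (w i) (R i).normal) :
    IsPolyhedron R where
  compact := isCompact_poly R W hW
  interior := by
    obtain ⟨x, hx, k, hk, h⟩ := exists_H3 w0 hw0 hw03
    exact ⟨x, hx, fun i => by rw [h]; exact mul_neg_of_pos_of_neg hk (h0 i)⟩
  irredundant := by
    intro i
    obtain ⟨x, hx, k, hk, h⟩ := exists_H3 (w i) (hw i) (hw3 i)
    refine ⟨x, hx, fun j hj => ⟨hx, mem_of_lor hk h (h1 i j hj)⟩, fun hc => ?_⟩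
    have := hc.2
    rw [h] at this
    exact absurd this (not_le.2 (mul_pos hk (h2 i)))

lemma isPolyhedron_P : IsPolyhedron P := by
  refine isPolyhedron_of P 2 ?_ ![0, 0, 0, 1] (by simp [lor]) (by simp) ?_
    ![![0, 0, -7 / 10, 1], ![4 / 1000000, 0, 0, 1], ![0, 0, 7 / 10, 1],
      ![-7 / 25 * (4 / 1000000), 24 / 25 * (4 / 1000000), 0, 1],
      ![-7 / 25 * (4 / 1000000), -24 / 25 * (4 / 1000000), 0, 1]] ?_ ?_ ?_ ?_
  · intro x hx i
    have := bound_P hx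
    have h3 : 0 < x 3 := hx.1.2
    fin_cases i <;> simp only [Fin.mk_one, Fin.zero_eta, Fin.reduceFinMk]
    · linarith
    · linarith
    · linarith
    · rw [abs_of_pos h3]; linarith
  · intro i
    fin_cases i <;> simp [P, lor_mkH] <;> norm_num [c, s]
  · intro i
    fin_cases i <;> simp [lor] <;> norm_num
  · intro i
    fin_cases i <;> simp
  · intro i j hij
    fin_cases i <;> fin_cases j <;> simp [P, lor_mkH] at hij ⊢ <;> norm_num [c, s]
  · intro i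
    fin_cases i <;> simp [P, lor_mkH] <;> norm_num [c, s]

lemma isPolyhedron_Q : IsPolyhedron Q := by
  refine isPolyhedron_of Q 2 ?_ ![1 / 10, 0, 0, 1] (by simp [lor]; norm_num) (by simp) ?_
    ![![1 / 10, 0, -1 / 10, 1], ![0, 7 / 10, 0, 1], ![1 / 10, 0, 1 / 10, 1],
      ![3 / 10, -9 / (32 * b), 3 / 10 * a, 1],
      ![3 / 10, -9 / (32 * b), -3 / 10 * a, 1]] ?_ ?_ ?_ ?_
  · intro x hx i
    have := bound_Q hx
    have h3 : 0 < x 3 := hx.1.2
    fin_cases i <;> simp only [Fin.mk_one, Fin.zero_eta, Fin.reduceFinMk]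
    · linarith
    · linarith
    · linarith
    · rw [abs_of_pos h3]; linarith
  · intro i
    fin_cases i <;> simp [Q, lor_mkH] <;> norm_num [a, b]
  · intro i
    fin_cases i <;> simp [lor] <;> norm_num [a, b]
  · intro i
    fin_cases i <;> simp
  · intro i j hij
    fin_cases i <;> fin_cases j <;> simp [Q, lor_mkH] at hij ⊢ <;> norm_num [a, b]
  · intro i
    fin_cases i <;> simp [Q, lor_mkH] <;> norm_num [a, b]

/-! ### Dihedral angles -/

/-- Timelike vectors orthogonal to the normals `i` and `j` of `Q`. -/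
noncomputable def Wt : Fin 5 → Fin 5 → Fin 4 → ℝ :=
  let A : Fin 4 → ℝ := ![0, 9 / 16, 0, 1]
  let B : Fin 4 → ℝ := ![0, -9 / (16 * b), 0, 1]
  let C : Fin 4 → ℝ := ![3 / 5, 0, 0, 1]
  ![![A, A, A, B, B], ![A, A, A, C, C], ![A, A, A, B, B], ![B, C, B, B, B], ![B, C, B, B, B]]

lemma Wt_lor (i j : Fin 5) (hij : i < j) : lor (Wt i j) (Wt i j) < 0 := by
  fin_cases i <;> fin_cases j <;> first
    | exact absurd hij (by decide)
    | (simp [Wt, lor]; try norm_num [b])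

lemma Wt_three (i j : Fin 5) (hij : i < j) : 0 < Wt i j 3 := by
  fin_cases i <;> fin_cases j <;> first
    | exact absurd hij (by decide)
    | simp [Wt]

lemma Wt_left (i j : Fin 5) (hij : i < j) : lor (Wt i j) (Q i).normal = 0 := by
  fin_cases i <;> fin_cases j <;> first
    | exact absurd hij (by decide)
    | (simp [Wt, Q, lor_mkH]; try norm_num [a, b])

lemma Wt_right (i j : Fin 5) (hij : i < j) : lor (Wt i j) (Q j).normal = 0 := by
  fin_cases i <;> fin_cases j <;> first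
    | exact absurd hij (by decide)
    | (simp [Wt, Q, lor_mkH]; try norm_num [a, b])

lemma gram_lt (i j : Fin 5) (hij : i < j) :
    lor (P i).normal (P j).normal < lor (Q i).normal (Q j).normal := by
  fin_cases i <;> fin_cases j <;> first
    | exact absurd hij (by decide)
    | (simp [P, Q, lor, mkH]; norm_num [a, b, c, s])

lemma gram_Q (i j : Fin 5) (hij : i < j) :
    -1 < lor (Q i).normal (Q j).normal ∧ lor (Q i).normal (Q j).normal < 1 := by
  fin_cases i <;> fin_cases j <;> first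
    | exact absurd hij (by decide)
    | (simp [Q, lor, mkH]; norm_num [a, b, c, s])

lemma dihedral_PQ (i j : Fin 5) (hij : i < j) :
    dihedral (P i) (P j) < dihedral (Q i) (Q j) :=
  dihedral_lt _ _ _ _ (planes_meet _ _ (Wt i j) (Wt_lor i j hij) (Wt_three i j hij)
    (Wt_left i j hij) (Wt_right i j hij)) (gram_lt i j hij) (gram_Q i j hij).1 (gram_Q i j hij).2

/-! ### Volumes -/

lemma lift_apply (y : Fin 3 → ℝ) : lift y 0 = y 0 ∧ lift y 1 = y 1 ∧ lift y 2 = y 2 ∧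
    lift y 3 = √(1 + (y 0 ^ 2 + y 1 ^ 2 + y 2 ^ 2)) := by
  simp [lift]

lemma lift_mem (y : Fin 3 → ℝ) : lift y ∈ H3 := by
  obtain ⟨h0, h1, h2, h3⟩ := lift_apply y
  have hpos : 0 < 1 + (y 0 ^ 2 + y 1 ^ 2 + y 2 ^ 2) := by positivity
  refine ⟨?_, ?_⟩
  · unfold lor
    rw [h0, h1, h2, h3, Real.mul_self_sqrt hpos.le]; ring
  · rw [h3]; exact Real.sqrt_pos.2 hpos

lemma hvol_P_le : hvol (poly P) ≤ ENNReal.ofReal (4 / 100000 * (2 / 100000) * 2) := by
  have := hvol_le (poly P) ![-(2 / 100000), -(1 / 100000), -1] ![2 / 100000, 1 / 100000, 1]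
    (by simp <;> norm_num) (by simp <;> norm_num) ?_
  · simpa [Matrix.cons_val] using this.trans (ENNReal.ofReal_le_ofReal (by simp <;> norm_num))
  · intro y hy
    obtain ⟨h0, h1, h2, h3⟩ := lift_apply y
    obtain ⟨b0, b1, b2, -⟩ := bound_P hy
    rw [h0] at b0
    rw [h1] at b1
    rw [h2] at b2
    rw [abs_le] at b0 b1 b2
    refine ⟨fun i => ?_, fun i => ?_⟩ <;> fin_cases i <;>
      simp only [Fin.mk_one, Fin.zero_eta, Fin.reduceFinMk, Matrix.cons_val] <;> linarith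

lemma hvol_Q_lt_top : hvol (poly Q) < ⊤ := by
  refine lt_of_le_of_lt (hvol_le (poly Q) ![-2, -2, -2] ![2, 2, 2]
    (by simp <;> norm_num) (by simp <;> norm_num) ?_) ENNReal.ofReal_lt_top
  intro y hy
  obtain ⟨h0, h1, h2, h3⟩ := lift_apply y
  obtain ⟨b0, b1, b2, -⟩ := bound_Q hy
  rw [h0] at b0
  rw [h1] at b1
  rw [h2] at b2
  rw [abs_le] at b0 b1 b2
  refine ⟨fun i => ?_, fun i => ?_⟩ <;> fin_cases i <;>
    simp only [Fin.mk_one, Fin.zero_eta, Fin.reduceFinMk, Matrix.cons_val] <;> linarith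

lemma le_hvol_Q : ENNReal.ofReal (1 / 2 * (1 / 10 * (1 / 5) * (6 / 10 * a))) ≤ hvol (poly Q) := by
  have := le_hvol (poly Q) ![3 / 10, -(1 / 10), -(3 / 10 * a)] ![4 / 10, 1 / 10, 3 / 10 * a] 2
    (by norm_num) (by simp <;> norm_num) (by simp <;> norm_num) ?_ ?_
  · refine le_trans (ENNReal.ofReal_le_ofReal ?_) this
    simp only [Matrix.cons_val]
    linarith
  · rintro y ⟨hl, hr⟩
    have l0 := hl 0
    have l1 := hl 1
    have l2 := hl 2
    have r0 := hr 0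
    have r1 := hr 1
    have r2 := hr 2
    simp only [Matrix.cons_val] at l0 l1 l2 r0 r1 r2
    obtain ⟨h0, h1, h2, h3⟩ := lift_apply y
    have hw : 1 ≤ lift y 3 := by
      rw [h3, Real.one_le_sqrt]
      nlinarith [sq_nonneg (y 0), sq_nonneg (y 1), sq_nonneg (y 2)]
    rw [mem_poly_Q, h0, h1, h2]
    refine ⟨lift_mem y, ?_⟩
    unfold a b at *
    refine ⟨?_, ?_, ?_, ?_, ?_⟩ <;> linarith
  · rintro y ⟨hl, hr⟩
    have l0 := hl 0
    have l1 := hl 1
    have l2 := hl 2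
    have r0 := hr 0
    have r1 := hr 1
    have r2 := hr 2
    simp only [Matrix.cons_val] at l0 l1 l2 r0 r1 r2
    unfold a at *
    nlinarith

lemma hvol_lt : hvol (poly P) < hvol (poly Q) := by
  refine lt_of_le_of_lt hvol_P_le (lt_of_lt_of_le ?_ le_hvol_Q)
  rw [ENNReal.ofReal_lt_ofReal_iff (by unfold a; norm_num)]
  unfold a
  norm_num

end Pool.Agent.DihedralVol
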